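import Pool.Agent.Helper39.FG.I3
import Pool.Agent.Helper30.FG.D4a

/-!
# Gain, cross term and dilation term in the notation of project FG
-/

set_option autoImplicit false

open MeasureTheory Set Filter Topology

namespace Pool.Agent.Helper39.FG

open Pool.Agent.Helper30.FG (Wh Sv rho HG IsE Sv_facts)

/-- `(1 + log k) / k` is small compared with `k^(-α)` -/
theorem small {α : ℝ} (h1 : α < 1) (D : ℝ) {c : ℝ} (hc : 0 < c) :
    ∃ k0 : ℝ, 8 ≤ k0 ∧ ∀ k : ℝ, k0 ≤ k → D * (1 + Real.log k) / k ≤ c * k ^ (-α) := by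
  have hlog : Tendsto (fun k : ℝ => Real.log k / k ^ (1 - α)) atTop (𝓝 0) :=
    (isLittleO_log_rpow_atTop (by linarith : (0 : ℝ) < 1 - α)).tendsto_div_nhds_zero
  have hone : Tendsto (fun k : ℝ => 1 / k ^ (1 - α)) atTop (𝓝 0) := by
    have := tendsto_rpow_neg_atTop (by linarith : (0 : ℝ) < 1 - α)
    refine this.congr' ?_
    filter_upwards [eventually_gt_atTop 0] with k hk
    rw [Real.rpow_neg hk.le, one_div]
  have hsum : Tendsto (fun k : ℝ => D * (1 / k ^ (1 - α) + Real.log k / k ^ (1 - α))) atTop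
      (𝓝 0) := by
    have := (hone.add hlog).const_mul D
    simpa using this
  have hev := hsum.eventually (eventually_lt_nhds hc)
  obtain ⟨k1, hk1⟩ := eventually_atTop.1 hev
  refine ⟨max 8 k1, le_max_left _ _, fun k hk => ?_⟩
  have hk0 : 0 < k := by linarith [le_max_left (8 : ℝ) k1]
  have h2 := hk1 k ((le_max_right _ _).trans hk)
  have h3 : D * (1 + Real.log k) / k =
      D * (1 / k ^ (1 - α) + Real.log k / k ^ (1 - α)) * k ^ (-α) := by
    rw [show (1 : ℝ) - α = 1 + (-α) by ring, Real.rpow_add hk0, Real.rpow_one]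
    have : 0 < k ^ (-α) := Real.rpow_pos_of_pos hk0 _
    field_simp
  rw [h3]
  have : 0 < k ^ (-α) := Real.rpow_pos_of_pos hk0 _
  gcongr

theorem gain {α : ℝ} (h0 : 0 < α) (h1 : α < 1) :
    ∃ K1 : ℝ, 0 < K1 ∧ ∀ ε : ℝ, 0 < ε →
      IntegrableOn (fun t : ℝ => t ^ (-α - 1) *
        (Real.exp (-(4 * (ε * t))) * (Wh (ε * t) - 1) ^ 2)) (Ioi 0) ∧
      ∫ t in Ioi (0 : ℝ), t ^ (-α - 1) *
        (Real.exp (-(4 * (ε * t))) * (Wh (ε * t) - 1) ^ 2) = K1 * ε ^ α := by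
  refine ⟨∫ y in Ioi (0 : ℝ), y ^ (-α - 1) * k1 y, K1_pos h0 h1, fun ε hε => ?_⟩
  have hk : 0 < ε⁻¹ := inv_pos.2 hε
  have hpt : ∀ t : ℝ, Real.exp (-(4 * (ε * t))) * (Wh (ε * t) - 1) ^ 2 = k1 (t / ε⁻¹) := by
    intro t
    rw [div_inv_eq_mul, mul_comm t ε]
    unfold k1 Wh wf
    rw [neg_mul]
  simp only [hpt]
  refine ⟨scale_int k1 hk (int_k1 h0 h1), ?_⟩
  rw [scale k1 hk, mul_comm, Real.inv_rpow hε.le, Real.rpow_neg hε.le, inv_inv]

theorem Sv_sq {s : ℂ → ℂ} (hs : IsE (1 / 2) 1 s) : ∀ t ≥ 0, Sv s t ^ 2 ≤ Real.exp t := by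
  intro t ht
  have h := (Sv_facts hs).2.1 t ht
  have h2 : Sv s t ^ 2 ≤ Real.exp (t / 2) ^ 2 := by
    rw [← sq_abs]
    gcongr
  refine h2.trans (le_of_eq ?_)
  rw [← Real.exp_nat_mul]
  congr 1
  push_cast
  ring

theorem kAk_le {α C k : ℝ} {s : ℂ → ℂ} (hk : 0 < k) (h : HG α C s k) :
    k * Ak α (Sv s) k ≤ C * (1 + Real.log k) / k := by
  have h1 : Ak α (Sv s) k ≤ C * (1 + Real.log k) / k ^ 2 := h
  calc k * Ak α (Sv s) k ≤ k * (C * (1 + Real.log k) / k ^ 2) := by gcongr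
    _ = C * (1 + Real.log k) / k := by field_simp

theorem dilation {α : ℝ} (h0 : 0 < α) (h1 : α < 1) {s : ℂ → ℂ} (hs : IsE (1 / 2) 1 s)
    {C c : ℝ} (hC : 0 < C) (hc : 0 < c) :
    ∃ k0 : ℝ, 8 ≤ k0 ∧ ∀ k : ℝ, k0 ≤ k → HG α C s k →
      IntegrableOn (fun t : ℝ => t ^ (-α - 1) *
        (Real.exp (-t) * (Sv s t ^ 2 - Sv s ((1 - 4 * (1 / k)) * t) ^ 2))) (Ioi 0) ∧
      ∫ t in Ioi (0 : ℝ), t ^ (-α - 1) *
        (Real.exp (-t) * (Sv s t ^ 2 - Sv s ((1 - 4 * (1 / k)) * t) ^ 2)) ≤ c * k ^ (-α) := by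
  obtain ⟨hcd, -, -, -, -, C1, hC1, hS2⟩ := Sv_facts hs
  have hS1 := Sv_sq hs
  set cN := ∫ y in Ioi (0 : ℝ), y ^ (-α - 1) * nf y with hcN
  have hcN0 : 0 ≤ cN := by
    refine setIntegral_nonneg measurableSet_Ioi fun y hy => ?_
    exact mul_nonneg (Real.rpow_nonneg (le_of_lt hy) _) (nf_nonneg y)
  -- choose `K`
  obtain ⟨K, hK, hKc⟩ : ∃ K : ℝ, 1 ≤ K ∧ K ^ (-α) * cN ≤ c / 2 := by
    have ht : Tendsto (fun K : ℝ => K ^ (-α) * cN) atTop (𝓝 0) := by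
      have := (tendsto_rpow_neg_atTop h0).mul_const cN
      simpa using this
    have hev := ht.eventually (eventually_lt_nhds (half_pos hc))
    obtain ⟨K, h2, h3⟩ := (hev.and (eventually_ge_atTop 1)).exists
    exact ⟨K, h3, h2.le⟩
  obtain ⟨k0, hk0, hk0'⟩ := small h1 (8 * C1 + (16 + 2 * K) * C) (half_pos hc)
  refine ⟨k0, hk0, fun k hk hHG => ?_⟩
  have hk8 : 8 ≤ k := hk0.trans hk
  have hkp : 0 < k := by linarith
  have hT := T1_le hk8 h0 h1 hK hcd.continuous hS1 (C1 := C1)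
    (fun t ht => hS2 t ht.1 ht.2)
  have he : (1 : ℝ) - 4 * (1 / k) = 1 - 4 / k := by ring
  rw [he]
  refine ⟨hT.1, hT.2.trans ?_⟩
  have h2 := kAk_le hkp hHG
  have h3 := hk0' k hk
  have hlog : 0 ≤ Real.log k := Real.log_nonneg (by linarith)
  have h4 : 8 * C1 / k ≤ 8 * C1 * (1 + Real.log k) / k := by
    refine div_le_div_of_nonneg_right ?_ hkp.le
    nlinarith [mul_nonneg hC1.le hlog]
  have h5 : (16 + 2 * K) * (k * Ak α (Sv s) k) ≤ (16 + 2 * K) * C * (1 + Real.log k) / k := by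
    calc (16 + 2 * K) * (k * Ak α (Sv s) k) ≤ (16 + 2 * K) * (C * (1 + Real.log k) / k) := by
          gcongr
      _ = _ := by ring
  have h6 : (K * k) ^ (-α) * cN ≤ c / 2 * k ^ (-α) := by
    rw [Real.mul_rpow (by linarith) hkp.le]
    have : 0 < k ^ (-α) := Real.rpow_pos_of_pos hkp _
    calc K ^ (-α) * k ^ (-α) * cN = K ^ (-α) * cN * k ^ (-α) := by ring
      _ ≤ c / 2 * k ^ (-α) := by gcongr
  have h7 : 8 * C1 * (1 + Real.log k) / k + (16 + 2 * K) * C * (1 + Real.log k) / k =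
      (8 * C1 + (16 + 2 * K) * C) * (1 + Real.log k) / k := by ring
  linarith

theorem cross {α : ℝ} (h0 : 0 < α) (h1 : α < 1) {s : ℂ → ℂ} (hs : IsE (1 / 2) 1 s)
    {C c : ℝ} (hC : 0 < C) (hc : 0 < c) :
    ∃ k0 : ℝ, 8 ≤ k0 ∧ ∀ k : ℝ, k0 ≤ k → HG α C s k →
      IntegrableOn (fun t : ℝ => t ^ (-α - 1) * (Real.sqrt (rho s ((1 - 4 * (1 / k)) * t)) *
        (Real.exp (-(4 * (1 / k * t))) * Wh (1 / k * t) * (Wh (1 / k * t) - 1)))) (Ioi 0) ∧
      ∫ t in Ioi (0 : ℝ), t ^ (-α - 1) * (Real.sqrt (rho s ((1 - 4 * (1 / k)) * t)) *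
        (Real.exp (-(4 * (1 / k * t))) * Wh (1 / k * t) * (Wh (1 / k * t) - 1))) ≤
          c * k ^ (-α) := by
  obtain ⟨hcd, -⟩ := Sv_facts hs
  have hS1 := Sv_sq hs
  have hSm : Measurable (Sv s) := hcd.continuous.measurable
  set K2 := ∫ y in Ioi (0 : ℝ), y ^ (-α - 1) * k2 y with hK2
  have hK20 : 0 ≤ K2 := by
    refine setIntegral_nonneg measurableSet_Ioi fun y hy => ?_
    exact mul_nonneg (Real.rpow_nonneg (le_of_lt hy) _) (k2_nonneg hy)
  set lam := c / (K2 + 1) with hlam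
  have hl0 : 0 < lam := by positivity
  have hl1 : lam / 2 * K2 ≤ c / 2 := by
    have : lam * K2 ≤ c := by
      rw [hlam, div_mul_eq_mul_div, div_le_iff₀ (by positivity)]
      nlinarith
    linarith
  obtain ⟨k0, hk0, hk0'⟩ := small h1 ((2 * lam)⁻¹ * (32 + 16 * C)) (half_pos hc)
  refine ⟨k0, hk0, fun k hk hHG => ?_⟩
  have hk8 : 8 ≤ k := hk0.trans hk
  have hkp : 0 < k := by linarith
  have he : (1 : ℝ) - 4 * (1 / k) = 1 - 4 / k := by ring
  rw [he]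
  have hν1 := nu_ge hk8
  set ν := 1 - 4 / k with hν
  have hpt : ∀ t : ℝ, Real.exp (-(4 * (1 / k * t))) * Wh (1 / k * t) * (Wh (1 / k * t) - 1) =
      k2 (t / k) := by
    intro t
    rw [show 1 / k * t = t / k by ring]
    unfold k2 Wh wf
    rw [neg_mul, mul_assoc]
  simp only [hpt]
  have hI := I3_le hk8 h0 h1 hcd.continuous hS1
  rw [← hν] at hI
  have hk2i := scale_int (a := α) k2 hkp (int_k2 h0 h1)
  have hk2e := scale (a := α) k2 hkp
  have hG : IntegrableOn (fun t : ℝ => lam / 2 * (t ^ (-α - 1) * k2 (t / k)) + (2 * lam)⁻¹ *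
      (t ^ (-α - 1) * (Real.exp (-(ν * t)) * Sv s (ν * t) ^ 2 * k2 (t / k)))) (Ioi 0) :=
    (hk2i.const_mul _).add (hI.1.const_mul _)
  have hle : ∀ t ∈ Ioi (0 : ℝ), 0 ≤ t ^ (-α - 1) * (Real.sqrt (rho s (ν * t)) * k2 (t / k)) ∧
      t ^ (-α - 1) * (Real.sqrt (rho s (ν * t)) * k2 (t / k)) ≤
      lam / 2 * (t ^ (-α - 1) * k2 (t / k)) + (2 * lam)⁻¹ *
      (t ^ (-α - 1) * (Real.exp (-(ν * t)) * Sv s (ν * t) ^ 2 * k2 (t / k))) := by
    intro t ht
    have ht0 : 0 < t := ht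
    have h2 : 0 < t ^ (-α - 1) := Real.rpow_pos_of_pos ht0 _
    have h3 := k2_nonneg (div_pos ht0 hkp)
    have h4 : 0 ≤ rho s (ν * t) := by unfold rho; positivity
    set r := Real.sqrt (rho s (ν * t)) with hr
    have hr0 : 0 ≤ r := Real.sqrt_nonneg _
    have hr2 : r ^ 2 = rho s (ν * t) := Real.sq_sqrt h4
    have h5 : r ≤ lam / 2 + (2 * lam)⁻¹ * r ^ 2 := by
      have h6 : 0 ≤ (2 * lam)⁻¹ * (lam - r) ^ 2 := by positivity
      have h7 : (2 * lam)⁻¹ * (lam - r) ^ 2 = lam / 2 - r + (2 * lam)⁻¹ * r ^ 2 := by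
        field_simp
        ring
      linarith
    refine ⟨by positivity, ?_⟩
    calc t ^ (-α - 1) * (r * k2 (t / k)) ≤
        t ^ (-α - 1) * ((lam / 2 + (2 * lam)⁻¹ * r ^ 2) * k2 (t / k)) := by gcongr
      _ = _ := by rw [hr2]; unfold rho; ring
  have hint : IntegrableOn (fun t : ℝ => t ^ (-α - 1) *
      (Real.sqrt (rho s (ν * t)) * k2 (t / k))) (Ioi 0) := by
    refine Integrable.mono' hG ?_ ?_
    · refine Measurable.aestronglyMeasurable ?_
      have h2 := measurable_k2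
      have h3 : Measurable (rho s) := by
        unfold rho
        fun_prop
      fun_prop
    · refine (ae_restrict_mem measurableSet_Ioi).mono fun t ht => ?_
      rw [Real.norm_of_nonneg (hle t ht).1]
      exact (hle t ht).2
  refine ⟨hint, ?_⟩
  refine (setIntegral_mono_on hint hG measurableSet_Ioi fun t ht => (hle t ht).2).trans ?_
  rw [integral_add (hk2i.const_mul _) (hI.1.const_mul _), integral_const_mul,
    integral_const_mul, hk2e, ← hK2]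
  have hI2 := hI.2
  have h2 := kAk_le hkp hHG
  have h3 := hk0' k hk
  have hlog : 0 ≤ Real.log k := Real.log_nonneg (by linarith)
  have hp : 0 < k ^ (-α) := Real.rpow_pos_of_pos hkp _
  have h4 : lam / 2 * (k ^ (-α) * K2) ≤ c / 2 * k ^ (-α) := by
    calc lam / 2 * (k ^ (-α) * K2) = lam / 2 * K2 * k ^ (-α) := by ring
      _ ≤ c / 2 * k ^ (-α) := by gcongr
  have h5 : 32 / k ^ 2 + 16 * (k * Ak α (Sv s) k) ≤ (32 + 16 * C) * (1 + Real.log k) / k := by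
    have h6 : 32 / k ^ 2 ≤ 32 * (1 + Real.log k) / k := by
      rw [div_le_div_iff₀ (by positivity) hkp]
      nlinarith [mul_nonneg hlog hkp.le, mul_nonneg (mul_nonneg hlog hkp.le) hkp.le]
    calc 32 / k ^ 2 + 16 * (k * Ak α (Sv s) k) ≤
        32 * (1 + Real.log k) / k + 16 * (C * (1 + Real.log k) / k) := by gcongr
      _ = _ := by ring
  have h7 : (2 * lam)⁻¹ * ∫ t in Ioi (0 : ℝ), t ^ (-α - 1) *
      (Real.exp (-(ν * t)) * Sv s (ν * t) ^ 2 * k2 (t / k)) ≤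
      (2 * lam)⁻¹ * ((32 + 16 * C) * (1 + Real.log k) / k) := by
    have : 0 ≤ (2 * lam)⁻¹ := by positivity
    gcongr
    exact hI2.trans h5
  have h8 : (2 * lam)⁻¹ * ((32 + 16 * C) * (1 + Real.log k) / k) =
      (2 * lam)⁻¹ * (32 + 16 * C) * (1 + Real.log k) / k := by ring
  linarith

end Pool.Agent.Helper39.FG
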