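import Pool.Agent.Helper39.FG.T1

/-!
# The cross term
-/

set_option autoImplicit false

open MeasureTheory Set Real Filter Topology

namespace Pool.Agent.Helper39.FG

variable {a k : ℝ}

theorem I3_le (hk : 8 ≤ k) (ha : 0 < a) (ha1 : a < 1) {S : ℝ → ℝ} (hS : Continuous S)
    (hS1 : ∀ t ≥ 0, S t ^ 2 ≤ exp t) :
    IntegrableOn (fun t : ℝ => t ^ (-a - 1) *
      (exp (-((1 - 4 / k) * t)) * S ((1 - 4 / k) * t) ^ 2 * k2 (t / k))) (Ioi 0) ∧
    ∫ t in Ioi (0 : ℝ), t ^ (-a - 1) *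
      (exp (-((1 - 4 / k) * t)) * S ((1 - 4 / k) * t) ^ 2 * k2 (t / k)) ≤
      32 / k ^ 2 + 16 * (k * Ak a S k) := by
  have hk0 : 0 < k := by linarith
  have hν1 := nu_ge hk
  have hν2 := nu_lt hk
  have hAi := int_Ak ha hS hS1 hk0
  unfold Ak
  set ν := 1 - 4 / k with hν
  have hν0 : 0 < ν := by linarith
  have hνa : ν ^ a ≤ 1 := Real.rpow_le_one hν0.le hν2.le ha.le
  have hνa' : 0 < ν ^ a := Real.rpow_pos_of_pos hν0 _
  have hSm := hS.measurable
  have hk2m := measurable_k2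
  have hνk : 0 < ν * k := by positivity
  -- pointwise bounds of the kernel
  have hk2a : ∀ u > 0, 0 ≤ k2 (u / (ν * k)) := fun u hu => k2_nonneg (div_pos hu hνk)
  have hk2b : ∀ u > 0, k2 (u / (ν * k)) ≤ 8 := fun u hu => by
    have h1 := k2_le (div_pos hu hνk)
    have h2 := Mf_le_one (div_pos hu hνk)
    linarith
  have hk2c : ∀ u > 0, k2 (u / (ν * k)) ≤ 32 / k ^ 2 * u ^ 2 := fun u hu => by
    have h1 := k2_le (div_pos hu hνk)
    have h2 := Mf_le_sq (div_pos hu hνk)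
    calc k2 (u / (ν * k)) ≤ 8 * (u / (ν * k)) ^ 2 := by linarith
      _ = 8 * u ^ 2 / k ^ 2 * (1 / ν ^ 2) := by field_simp
      _ ≤ 8 * u ^ 2 / k ^ 2 * 4 := by
          gcongr
          rw [div_le_iff₀ (by positivity)]
          nlinarith
      _ = 32 / k ^ 2 * u ^ 2 := by ring
  have hk2d : ∀ u > 0, k2 (u / (ν * k)) * (u ^ 2 + k ^ 2) ≤ 16 * k * u := fun u hu => by
    have hy := div_pos hu hνk
    have h1 := k2_le hy
    have h2 := Mf_mul_le hy
    have h3 := Mf_nonneg hy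
    set y := u / (ν * k) with hy'
    have hu' : u = ν * k * y := by rw [hy']; field_simp
    have h4 : u ^ 2 + k ^ 2 ≤ k ^ 2 * (1 + y ^ 2) := by
      have : u ^ 2 ≤ k ^ 2 * y ^ 2 := by
        rw [hu']
        have : ν ^ 2 ≤ 1 := by nlinarith
        calc (ν * k * y) ^ 2 = ν ^ 2 * (k ^ 2 * y ^ 2) := by ring
          _ ≤ 1 * (k ^ 2 * y ^ 2) := by gcongr
          _ = k ^ 2 * y ^ 2 := one_mul _
      linarith
    calc k2 y * (u ^ 2 + k ^ 2) ≤ (8 * Mf y) * (k ^ 2 * (1 + y ^ 2)) := by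
          gcongr
      _ = 8 * k ^ 2 * (Mf y * (1 + y ^ 2)) := by ring
      _ ≤ 8 * k ^ 2 * y := by gcongr
      _ = 8 * k * (k * y) := by ring
      _ ≤ 8 * k * (2 * u) := by
          refine mul_le_mul_of_nonneg_left ?_ (by positivity)
          have h5 : 0 < k * y := by positivity
          have h6 : 1 * (k * y) ≤ 2 * ν * (k * y) :=
            mul_le_mul_of_nonneg_right (by linarith) h5.le
          calc k * y = 1 * (k * y) := (one_mul _).symm
            _ ≤ 2 * ν * (k * y) := h6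
            _ = 2 * (ν * k * y) := by ring
            _ = 2 * u := by rw [← hu']
      _ = 16 * k * u := by ring
  -- the substituted function
  have hG : IntegrableOn (fun u : ℝ => ν ^ a * (u ^ (-a - 1) *
      (exp (-u) * S u ^ 2 * k2 (u / (ν * k))))) (Ioi 0) := by
    refine intOn_of_bound ha (by
      refine Measurable.aestronglyMeasurable ?_
      fun_prop) 32 ?_ ?_
    · intro u hu
      have h1 : 0 < u ^ (-a - 1) := Real.rpow_pos_of_pos hu.1 _
      have h2 := rho_le hS1 hu.1.le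
      have h3 : 0 ≤ exp (-u) * S u ^ 2 := by positivity
      have h4 := hk2a u hu.1
      rw [abs_of_nonneg (by positivity)]
      calc ν ^ a * (u ^ (-a - 1) * (exp (-u) * S u ^ 2 * k2 (u / (ν * k)))) ≤
          1 * (u ^ (-a - 1) * (1 * (32 / k ^ 2 * u ^ 2))) := by
            gcongr
            exact hk2c u hu.1
        _ = 32 / k ^ 2 * (u ^ (-a - 1) * u ^ 2) := by ring
        _ ≤ 32 / 1 * 1 := by
            gcongr
            · nlinarith
            · exact rpow_mul_sq_le ha1 hu.1 hu.2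
        _ = 32 := by norm_num
    · intro u hu
      have hu0 : 0 < u := lt_trans one_pos hu
      have h1 : 0 < u ^ (-a - 1) := Real.rpow_pos_of_pos hu0 _
      have h2 := rho_le hS1 hu0.le
      have h3 : 0 ≤ exp (-u) * S u ^ 2 := by positivity
      have h4 := hk2a u hu0
      rw [abs_of_nonneg (by positivity)]
      calc ν ^ a * (u ^ (-a - 1) * (exp (-u) * S u ^ 2 * k2 (u / (ν * k)))) ≤
          1 * (u ^ (-a - 1) * (1 * 8)) := by
            gcongr
            exact hk2b u hu0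
        _ = 8 * u ^ (-a - 1) := by ring
        _ ≤ 32 * u ^ (-a - 1) := by gcongr; norm_num
  have hsub := integral_comp_mul_left_Ioi (fun u : ℝ => ν ^ a * (u ^ (-a - 1) *
      (exp (-u) * S u ^ 2 * k2 (u / (ν * k))))) 0 hν0
  have hsubi := (integrableOn_Ioi_comp_mul_left_iff (fun u : ℝ => ν ^ a * (u ^ (-a - 1) *
      (exp (-u) * S u ^ 2 * k2 (u / (ν * k))))) 0 hν0).2 (by rwa [mul_zero])
  rw [mul_zero, smul_eq_mul] at hsub
  have hpt : ∀ t ∈ Ioi (0 : ℝ), ν * (ν ^ a * ((ν * t) ^ (-a - 1) *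
      (exp (-(ν * t)) * S (ν * t) ^ 2 * k2 (ν * t / (ν * k))))) =
      t ^ (-a - 1) * (exp (-(ν * t)) * S (ν * t) ^ 2 * k2 (t / k)) := by
    intro t ht
    have ht0 : 0 < t := ht
    rw [mul_div_mul_left t k hν0.ne', Real.mul_rpow hν0.le ht0.le]
    have h1 : ν * ν ^ a * ν ^ (-a - 1) = 1 := by
      rw [Real.rpow_sub_one hν0.ne', Real.rpow_neg hν0.le]
      field_simp
    calc ν * (ν ^ a * (ν ^ (-a - 1) * t ^ (-a - 1) *
        (exp (-(ν * t)) * S (ν * t) ^ 2 * k2 (t / k)))) =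
        (ν * ν ^ a * ν ^ (-a - 1)) * (t ^ (-a - 1) *
          (exp (-(ν * t)) * S (ν * t) ^ 2 * k2 (t / k))) := by ring
      _ = _ := by rw [h1, one_mul]
  have hf2 : IntegrableOn (fun t : ℝ => t ^ (-a - 1) *
      (exp (-(ν * t)) * S (ν * t) ^ 2 * k2 (t / k))) (Ioi 0) := by
    have h1 : IntegrableOn (fun t : ℝ => ν * (ν ^ a * ((ν * t) ^ (-a - 1) *
      (exp (-(ν * t)) * S (ν * t) ^ 2 * k2 (ν * t / (ν * k)))))) (Ioi 0) :=
      Integrable.const_mul hsubi ν
    exact h1.congr_fun hpt measurableSet_Ioi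
  refine ⟨hf2, ?_⟩
  rw [← setIntegral_congr_fun measurableSet_Ioi hpt, integral_const_mul, hsub,
      mul_inv_cancel_left₀ hν0.ne']
  have hd := hG
  rw [← Ioc_union_Ioi_eq_Ioi (zero_le_one (α := ℝ))] at hd ⊢
  rw [setIntegral_union (Ioc_disjoint_Ioi le_rfl) measurableSet_Ioi
    (hd.mono_set subset_union_left) (hd.mono_set subset_union_right)]
  refine add_le_add ?_ ?_
  · have h1 : ∫ t in Ioc (0 : ℝ) 1, (32 / k ^ 2) = 32 / k ^ 2 := by simp
    rw [← h1]
    refine setIntegral_mono_on (hd.mono_set subset_union_left) (integrableOn_const (by simp))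
      measurableSet_Ioc fun u hu => ?_
    have h1 : 0 < u ^ (-a - 1) := Real.rpow_pos_of_pos hu.1 _
    have h2 := rho_le hS1 hu.1.le
    have h3 : 0 ≤ exp (-u) * S u ^ 2 := by positivity
    have h4 := hk2a u hu.1
    calc ν ^ a * (u ^ (-a - 1) * (exp (-u) * S u ^ 2 * k2 (u / (ν * k)))) ≤
        1 * (u ^ (-a - 1) * (1 * (32 / k ^ 2 * u ^ 2))) := by
          gcongr
          exact hk2c u hu.1
      _ = 32 / k ^ 2 * (u ^ (-a - 1) * u ^ 2) := by ring
      _ ≤ 32 / k ^ 2 * 1 := by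
          gcongr
          exact rpow_mul_sq_le ha1 hu.1 hu.2
      _ = 32 / k ^ 2 := mul_one _
  · have h1 : 16 * (k * ∫ t in Ioi (1 : ℝ), t ^ (-a) * (exp (-t) * S t ^ 2) / (t ^ 2 + k ^ 2)) =
        ∫ t in Ioi (1 : ℝ), 16 * k * (t ^ (-a) * (exp (-t) * S t ^ 2) / (t ^ 2 + k ^ 2)) := by
      rw [integral_const_mul]; ring
    rw [h1]
    refine setIntegral_mono_on (hd.mono_set subset_union_right) (hAi.const_mul _)
      measurableSet_Ioi fun u hu => ?_
    have hu0 : 0 < u := lt_trans one_pos hu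
    have h1 : 0 < u ^ (-a) := Real.rpow_pos_of_pos hu0 _
    have h2e : u ^ (-a - 1) = u ^ (-a) / u := Real.rpow_sub_one hu0.ne' _
    have h3 : 0 ≤ exp (-u) * S u ^ 2 := by positivity
    have h4 := hk2a u hu0
    have h5 := hk2d u hu0
    have h6 : k2 (u / (ν * k)) / u ≤ 16 * k / (u ^ 2 + k ^ 2) := by
      rw [div_le_div_iff₀ hu0 (by positivity)]
      exact h5
    calc ν ^ a * (u ^ (-a - 1) * (exp (-u) * S u ^ 2 * k2 (u / (ν * k)))) ≤
        1 * (u ^ (-a - 1) * (exp (-u) * S u ^ 2 * k2 (u / (ν * k)))) := by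
          have : 0 ≤ u ^ (-a - 1) := by rw [h2e]; positivity
          gcongr
      _ = u ^ (-a) * (exp (-u) * S u ^ 2) * (k2 (u / (ν * k)) / u) := by rw [h2e]; ring
      _ ≤ u ^ (-a) * (exp (-u) * S u ^ 2) * (16 * k / (u ^ 2 + k ^ 2)) :=
          mul_le_mul_of_nonneg_left h6 (mul_nonneg h1.le h3)
      _ = _ := by ring

end Pool.Agent.Helper39.FG
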