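import Pool.Agent.Helper39.FG.Wf

/-!
# The two error integrals
-/

set_option autoImplicit false

open MeasureTheory Set Real Filter Topology

namespace Pool.Agent.Helper39.FG

variable {a : ℝ}

/-- the integral controlled by the stationarity -/
noncomputable def Ak (a : ℝ) (S : ℝ → ℝ) (k : ℝ) : ℝ :=
  ∫ t in Ioi (1 : ℝ), t ^ (-a) * (exp (-t) * S t ^ 2) / (t ^ 2 + k ^ 2)

theorem rho_le {S : ℝ → ℝ} (hS1 : ∀ t ≥ 0, S t ^ 2 ≤ exp t) {t : ℝ} (ht : 0 ≤ t) :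
    exp (-t) * S t ^ 2 ≤ 1 := by
  calc exp (-t) * S t ^ 2 ≤ exp (-t) * exp t := by gcongr; exact hS1 t ht
    _ = 1 := by rw [← Real.exp_add]; simp

theorem int_Ak (ha : 0 < a) {S : ℝ → ℝ} (hS : Continuous S) (hS1 : ∀ t ≥ 0, S t ^ 2 ≤ exp t)
    {k : ℝ} (hk : 0 < k) :
    IntegrableOn (fun t : ℝ => t ^ (-a) * (exp (-t) * S t ^ 2) / (t ^ 2 + k ^ 2)) (Ioi 1) := by
  have h2 : IntegrableOn (fun t : ℝ => t ^ (-a - 1)) (Ioi 1) :=
    integrableOn_Ioi_rpow_of_lt (by linarith) one_pos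
  refine Integrable.mono' h2 ?_ ?_
  · refine Measurable.aestronglyMeasurable ?_
    have := hS.measurable
    fun_prop
  · refine (ae_restrict_mem measurableSet_Ioi).mono fun t ht => ?_
    have ht1 : (1 : ℝ) < t := ht
    have ht0 : 0 < t := lt_trans one_pos ht
    have h1 : 0 < t ^ (-a) := Real.rpow_pos_of_pos ht0 _
    have h3 : 0 ≤ exp (-t) * S t ^ 2 := by positivity
    rw [Real.norm_of_nonneg (by positivity), div_le_iff₀ (by positivity), Real.rpow_sub_one ht0.ne']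
    have h4 := rho_le hS1 ht0.le
    calc t ^ (-a) * (exp (-t) * S t ^ 2) ≤ t ^ (-a) * 1 := by gcongr
      _ = t ^ (-a) / t * t := by field_simp
      _ ≤ t ^ (-a) / t * (t ^ 2 + k ^ 2) := by
          gcongr
          nlinarith [sq_nonneg k]

section

variable {k : ℝ} (hk : 8 ≤ k)

include hk

theorem nu_ge : 1 / 2 ≤ 1 - 4 / k := by
  have h : 4 / k ≤ 1 / 2 := by
    rw [div_le_div_iff₀ (by linarith) two_pos]
    linarith
  linarith

theorem nu_lt : 1 - 4 / k < 1 := by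
  have h : 0 < 4 / k := by
    have : 0 < k := by linarith
    positivity
  linarith

theorem B_bound (ha : 0 < a) (ha1 : a < 1) {t : ℝ} (ht : 0 < t) :
    0 ≤ exp (-t) - (1 - 4 / k) ^ a * exp (-(t / (1 - 4 / k))) ∧
      exp (-t) - (1 - 4 / k) ^ a * exp (-(t / (1 - 4 / k))) ≤ exp (-t) ∧
      exp (-t) - (1 - 4 / k) ^ a * exp (-(t / (1 - 4 / k))) ≤ exp (-t) * (4 * (1 + t) / k) := by
  have hk0 : 0 < k := by linarith
  have h1 := nu_ge hk
  have h2 := nu_lt hk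
  set ν := 1 - 4 / k with hν
  have hν0 : 0 < ν := by linarith
  have h3 : ν ^ a ≤ 1 := Real.rpow_le_one hν0.le h2.le ha.le
  have h3' : 0 < ν ^ a := Real.rpow_pos_of_pos hν0 _
  have h4 : ν ≤ ν ^ a := by
    calc ν = ν ^ (1 : ℝ) := (Real.rpow_one ν).symm
      _ ≤ ν ^ a := Real.rpow_le_rpow_of_exponent_ge hν0 h2.le ha1.le
  have h5 : exp (-(t / ν)) = exp (-t) * exp (-(t / ν - t)) := by
    rw [← Real.exp_add]; congr 1; ring
  have h6 : 0 ≤ t / ν - t := by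
    have : t ≤ t / ν := by
      rw [le_div_iff₀ hν0]; nlinarith
    linarith
  have h7 : exp (-(t / ν - t)) ≤ 1 := Real.exp_le_one_iff.2 (by linarith)
  have h8 : 1 - (t / ν - t) ≤ exp (-(t / ν - t)) := by
    have := Real.add_one_le_exp (-(t / ν - t))
    linarith
  have h9 : 0 < exp (-(t / ν - t)) := Real.exp_pos _
  have h10 : 0 < exp (-t) := Real.exp_pos _
  have h11 : ν ^ a * exp (-(t / ν - t)) ≤ 1 := by
    calc ν ^ a * exp (-(t / ν - t)) ≤ 1 * 1 := by gcongr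
      _ = 1 := one_mul 1
  have h12 : 1 - 4 * (1 + t) / k ≤ ν ^ a * exp (-(t / ν - t)) := by
    calc 1 - 4 * (1 + t) / k = ν * (1 - (t / ν - t)) := by
          have : ν * (1 - (t / ν - t)) = ν - t + ν * t := by field_simp; ring
          rw [this, hν]
          field_simp
          ring
      _ ≤ ν * exp (-(t / ν - t)) := by gcongr
      _ ≤ ν ^ a * exp (-(t / ν - t)) := by gcongr
  have h13 : exp (-t) - ν ^ a * exp (-(t / ν)) = exp (-t) * (1 - ν ^ a * exp (-(t / ν - t))) := by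
    rw [h5]; ring
  rw [h13]
  refine ⟨mul_nonneg h10.le (by linarith), ?_, ?_⟩
  · have : 0 < ν ^ a * exp (-(t / ν - t)) := mul_pos h3' h9
    nlinarith
  · gcongr
    linarith

theorem T1_le (ha : 0 < a) (ha1 : a < 1) {K : ℝ} (hK : 1 ≤ K) {S : ℝ → ℝ} (hS : Continuous S)
    (hS1 : ∀ t ≥ 0, S t ^ 2 ≤ exp t) {C1 : ℝ}
    (hS2 : ∀ t ∈ Icc (0 : ℝ) 1, |S t ^ 2 - S 0 ^ 2| ≤ C1 * t ^ 2) :
    IntegrableOn (fun t : ℝ => t ^ (-a - 1) *
      (exp (-t) * (S t ^ 2 - S ((1 - 4 / k) * t) ^ 2))) (Ioi 0) ∧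
    ∫ t in Ioi (0 : ℝ), t ^ (-a - 1) * (exp (-t) * (S t ^ 2 - S ((1 - 4 / k) * t) ^ 2)) ≤
      8 * C1 / k + (16 + 2 * K) * (k * Ak a S k) +
        (K * k) ^ (-a) * ∫ y in Ioi (0 : ℝ), y ^ (-a - 1) * nf y := by
  have hk0 : 0 < k := by linarith
  have hν1 := nu_ge hk
  have hν2 := nu_lt hk
  have hB := fun (t : ℝ) (ht : 0 < t) => B_bound hk ha ha1 ht
  have hAi := int_Ak ha hS hS1 hk0
  unfold Ak
  set ν := 1 - 4 / k with hν
  have hν0 : 0 < ν := by linarith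
  have hνa : ν ^ a ≤ 1 := Real.rpow_le_one hν0.le hν2.le ha.le
  have hνa' : 0 < ν ^ a := Real.rpow_pos_of_pos hν0 _
  have hC1 : 0 ≤ C1 := by
    have := hS2 1 ⟨zero_le_one, le_rfl⟩
    have h0 := abs_nonneg (S 1 ^ 2 - S 0 ^ 2)
    linarith
  have hSm := hS.measurable
  have hS0 : S 0 ^ 2 ≤ 1 := by
    have := hS1 0 le_rfl
    rwa [Real.exp_zero] at this
  have hh : ∀ t > 1, exp (-t) * |S t ^ 2 - S 0 ^ 2| ≤ 2 := by
    intro t ht
    have ht0 : 0 < t := by linarith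
    have h1 := rho_le hS1 ht0.le
    have h2 : exp (-t) ≤ 1 := Real.exp_le_one_iff.2 (by linarith)
    have h3 : |S t ^ 2 - S 0 ^ 2| ≤ S t ^ 2 + S 0 ^ 2 := by
      rw [abs_le]
      constructor <;> nlinarith [sq_nonneg (S t), sq_nonneg (S 0)]
    calc exp (-t) * |S t ^ 2 - S 0 ^ 2| ≤ exp (-t) * (S t ^ 2 + S 0 ^ 2) := by gcongr
      _ = exp (-t) * S t ^ 2 + exp (-t) * S 0 ^ 2 := by ring
      _ ≤ 1 + 1 * 1 := by gcongr
      _ = 2 := by norm_num
  -- the first part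
  have hf1 : IntegrableOn (fun t : ℝ => t ^ (-a - 1) * (exp (-t) * (S t ^ 2 - S 0 ^ 2)))
      (Ioi 0) := by
    refine intOn_of_bound ha (by
      refine Measurable.aestronglyMeasurable ?_
      fun_prop) (C1 + 2) ?_ ?_
    · intro t ht
      have h1 : 0 < t ^ (-a - 1) := Real.rpow_pos_of_pos ht.1 _
      have h2 : exp (-t) ≤ 1 := Real.exp_le_one_iff.2 (by linarith [ht.1])
      rw [abs_mul, abs_of_pos h1, abs_mul, abs_of_pos (Real.exp_pos _)]
      calc t ^ (-a - 1) * (exp (-t) * |S t ^ 2 - S 0 ^ 2|) ≤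
          t ^ (-a - 1) * (1 * (C1 * t ^ 2)) := by
            gcongr
            exact hS2 t ⟨ht.1.le, ht.2⟩
        _ = C1 * (t ^ (-a - 1) * t ^ 2) := by ring
        _ ≤ C1 * 1 := by gcongr; exact rpow_mul_sq_le ha1 ht.1 ht.2
        _ ≤ C1 + 2 := by linarith
    · intro t ht
      have ht0 : 0 < t := lt_trans one_pos ht
      have h1 : 0 < t ^ (-a - 1) := Real.rpow_pos_of_pos ht0 _
      rw [abs_mul, abs_of_pos h1, abs_mul, abs_of_pos (Real.exp_pos _), mul_comm]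
      gcongr
      exact (hh t ht).trans (by linarith)
  -- the second part
  have hg : IntegrableOn (fun u : ℝ => ν ^ a * (u ^ (-a - 1) *
      (exp (-(u / ν)) * (S u ^ 2 - S 0 ^ 2)))) (Ioi 0) := by
    refine Integrable.mono' hf1.abs ?_ ?_
    · refine Measurable.aestronglyMeasurable ?_
      fun_prop
    · refine (ae_restrict_mem measurableSet_Ioi).mono fun t ht => ?_
      have ht0 : 0 < t := ht
      have h1 : 0 < t ^ (-a - 1) := Real.rpow_pos_of_pos ht0 _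
      have h2 : exp (-(t / ν)) ≤ exp (-t) := by
        refine Real.exp_le_exp.2 (neg_le_neg ?_)
        rw [le_div_iff₀ hν0]; nlinarith
      rw [Real.norm_eq_abs, abs_mul, abs_mul, abs_mul, abs_mul, abs_mul,
        abs_of_pos h1, abs_of_pos (Real.exp_pos _), abs_of_pos (Real.exp_pos _),
        abs_of_pos hνa']
      calc ν ^ a * (t ^ (-a - 1) * (exp (-(t / ν)) * |S t ^ 2 - S 0 ^ 2|)) ≤
          1 * (t ^ (-a - 1) * (exp (-t) * |S t ^ 2 - S 0 ^ 2|)) := by gcongr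
        _ = _ := one_mul _
  have hsub := integral_comp_mul_left_Ioi (fun u : ℝ => ν ^ a * (u ^ (-a - 1) *
      (exp (-(u / ν)) * (S u ^ 2 - S 0 ^ 2)))) 0 hν0
  have hsubi := (integrableOn_Ioi_comp_mul_left_iff (fun u : ℝ => ν ^ a * (u ^ (-a - 1) *
      (exp (-(u / ν)) * (S u ^ 2 - S 0 ^ 2)))) 0 hν0).2 (by rwa [mul_zero])
  rw [mul_zero, smul_eq_mul] at hsub
  have hpt : ∀ t ∈ Ioi (0 : ℝ), ν * (ν ^ a * ((ν * t) ^ (-a - 1) *
      (exp (-(ν * t / ν)) * (S (ν * t) ^ 2 - S 0 ^ 2)))) =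
      t ^ (-a - 1) * (exp (-t) * (S (ν * t) ^ 2 - S 0 ^ 2)) := by
    intro t ht
    have ht0 : 0 < t := ht
    rw [mul_div_cancel_left₀ t hν0.ne', Real.mul_rpow hν0.le ht0.le]
    have h1 : ν * ν ^ a * ν ^ (-a - 1) = 1 := by
      rw [Real.rpow_sub_one hν0.ne', Real.rpow_neg hν0.le]
      field_simp
    calc ν * (ν ^ a * (ν ^ (-a - 1) * t ^ (-a - 1) *
        (exp (-t) * (S (ν * t) ^ 2 - S 0 ^ 2)))) =
        (ν * ν ^ a * ν ^ (-a - 1)) * (t ^ (-a - 1) *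
          (exp (-t) * (S (ν * t) ^ 2 - S 0 ^ 2))) := by ring
      _ = _ := by rw [h1, one_mul]
  have hf2 : IntegrableOn (fun t : ℝ => t ^ (-a - 1) *
      (exp (-t) * (S (ν * t) ^ 2 - S 0 ^ 2))) (Ioi 0) := by
    have h1 : IntegrableOn (fun t : ℝ => ν * (ν ^ a * ((ν * t) ^ (-a - 1) *
      (exp (-(ν * t / ν)) * (S (ν * t) ^ 2 - S 0 ^ 2))))) (Ioi 0) :=
      Integrable.const_mul hsubi ν
    exact h1.congr_fun hpt measurableSet_Ioi
  have hf2e : ∫ t in Ioi (0 : ℝ), t ^ (-a - 1) * (exp (-t) * (S (ν * t) ^ 2 - S 0 ^ 2)) =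
      ∫ u in Ioi (0 : ℝ), ν ^ a * (u ^ (-a - 1) * (exp (-(u / ν)) * (S u ^ 2 - S 0 ^ 2))) := by
    rw [← setIntegral_congr_fun measurableSet_Ioi hpt, integral_const_mul, hsub,
      mul_inv_cancel_left₀ hν0.ne']
  have hsum : ∀ t : ℝ, t ^ (-a - 1) * (exp (-t) * (S t ^ 2 - S (ν * t) ^ 2)) =
      t ^ (-a - 1) * (exp (-t) * (S t ^ 2 - S 0 ^ 2)) -
        t ^ (-a - 1) * (exp (-t) * (S (ν * t) ^ 2 - S 0 ^ 2)) := fun t => by ring
  have hInt : IntegrableOn (fun t : ℝ => t ^ (-a - 1) *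
      (exp (-t) * (S t ^ 2 - S (ν * t) ^ 2))) (Ioi 0) := by
    simp only [hsum]
    exact hf1.sub hf2
  refine ⟨hInt, ?_⟩
  simp only [hsum]
  rw [integral_sub hf1 hf2, hf2e, ← integral_sub hf1 hg]
  have hd : IntegrableOn (fun t : ℝ => t ^ (-a - 1) * (exp (-t) * (S t ^ 2 - S 0 ^ 2)) -
      ν ^ a * (t ^ (-a - 1) * (exp (-(t / ν)) * (S t ^ 2 - S 0 ^ 2)))) (Ioi 0) := hf1.sub hg
  have hde : ∀ t : ℝ, t ^ (-a - 1) * (exp (-t) * (S t ^ 2 - S 0 ^ 2)) -
      ν ^ a * (t ^ (-a - 1) * (exp (-(t / ν)) * (S t ^ 2 - S 0 ^ 2))) =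
      t ^ (-a - 1) * ((S t ^ 2 - S 0 ^ 2) * (exp (-t) - ν ^ a * exp (-(t / ν)))) :=
    fun t => by ring
  have hKk : 0 < K * k := by positivity
  have hnfi := scale_int (a := a) nf hKk (int_nf ha ha1)
  have hnfe := scale (a := a) nf hKk
  generalize ∫ y in Ioi (0 : ℝ), y ^ (-a - 1) * nf y = cN at hnfe ⊢
  rw [← Ioc_union_Ioi_eq_Ioi (zero_le_one (α := ℝ))] at hd ⊢
  rw [setIntegral_union (Ioc_disjoint_Ioi le_rfl) measurableSet_Ioi
    (hd.mono_set subset_union_left) (hd.mono_set subset_union_right)]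
  have hp1 : ∫ t in Ioc (0 : ℝ) 1, (t ^ (-a - 1) * (exp (-t) * (S t ^ 2 - S 0 ^ 2)) -
      ν ^ a * (t ^ (-a - 1) * (exp (-(t / ν)) * (S t ^ 2 - S 0 ^ 2)))) ≤ 8 * C1 / k := by
    have h1 : ∫ t in Ioc (0 : ℝ) 1, (8 * C1 / k) = 8 * C1 / k := by simp
    rw [← h1]
    refine setIntegral_mono_on (hd.mono_set subset_union_left) (integrableOn_const (by simp))
      measurableSet_Ioc fun t ht => ?_
    rw [hde]
    obtain ⟨hB0, hB1, hB2⟩ := hB t ht.1
    have h2 : 0 < t ^ (-a - 1) := Real.rpow_pos_of_pos ht.1 _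
    have h3 : exp (-t) ≤ 1 := Real.exp_le_one_iff.2 (by linarith [ht.1])
    have h4 := hS2 t ⟨ht.1.le, ht.2⟩
    have h5 : exp (-t) - ν ^ a * exp (-(t / ν)) ≤ 8 / k := by
      calc exp (-t) - ν ^ a * exp (-(t / ν)) ≤ exp (-t) * (4 * (1 + t) / k) := hB2
        _ ≤ 1 * (4 * (1 + 1) / k) := by
            have := ht.2
            have := ht.1
            gcongr
        _ = 8 / k := by norm_num
    calc t ^ (-a - 1) * ((S t ^ 2 - S 0 ^ 2) * (exp (-t) - ν ^ a * exp (-(t / ν)))) ≤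
        t ^ (-a - 1) * ((C1 * t ^ 2) * (8 / k)) := by
          have h6 : S t ^ 2 - S 0 ^ 2 ≤ C1 * t ^ 2 := (le_abs_self _).trans h4
          gcongr
      _ = 8 * C1 / k * (t ^ (-a - 1) * t ^ 2) := by ring
      _ ≤ 8 * C1 / k * 1 := by gcongr; exact rpow_mul_sq_le ha1 ht.1 ht.2
      _ = 8 * C1 / k := mul_one _
  have hnfi' : IntegrableOn (fun t : ℝ => t ^ (-a - 1) * nf (t / (K * k))) (Ioi 1) :=
    hnfi.mono_set (Ioi_subset_Ioi zero_le_one)
  have hp2 : ∫ t in Ioi (1 : ℝ), (t ^ (-a - 1) * (exp (-t) * (S t ^ 2 - S 0 ^ 2)) -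
      ν ^ a * (t ^ (-a - 1) * (exp (-(t / ν)) * (S t ^ 2 - S 0 ^ 2)))) ≤
      ∫ t in Ioi (1 : ℝ), ((16 + 2 * K) * k *
        (t ^ (-a) * (exp (-t) * S t ^ 2) / (t ^ 2 + k ^ 2)) +
          t ^ (-a - 1) * nf (t / (K * k))) := by
    refine setIntegral_mono_on (hd.mono_set subset_union_right)
      ((hAi.const_mul ((16 + 2 * K) * k)).add hnfi') measurableSet_Ioi fun t ht => ?_
    rw [hde]
    have ht1 : 1 < t := ht
    have ht0 : 0 < t := lt_trans one_pos ht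
    obtain ⟨hB0, hB1, hB2⟩ := hB t ht0
    have h2 : 0 < t ^ (-a - 1) := Real.rpow_pos_of_pos ht0 _
    have h2' : 0 < t ^ (-a) := Real.rpow_pos_of_pos ht0 _
    have h2e : t ^ (-a - 1) = t ^ (-a) / t := Real.rpow_sub_one ht0.ne' _
    have h3 : 0 ≤ exp (-t) * S t ^ 2 := by positivity
    have h3' := rho_le hS1 ht0.le
    have hnf := nf_nonneg (t / (K * k))
    have h4 : (S t ^ 2 - S 0 ^ 2) * (exp (-t) - ν ^ a * exp (-(t / ν))) ≤
        S t ^ 2 * (exp (-t) - ν ^ a * exp (-(t / ν))) := by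
      gcongr
      nlinarith [sq_nonneg (S 0)]
    have hden : 0 < t ^ 2 + k ^ 2 := by positivity
    rcases le_total t k with hle | hle
    · have h7 : (S t ^ 2 - S 0 ^ 2) * (exp (-t) - ν ^ a * exp (-(t / ν))) ≤
          S t ^ 2 * (exp (-t) * (4 * (1 + t) / k)) :=
        h4.trans (mul_le_mul_of_nonneg_left hB2 (sq_nonneg _))
      have h8 : (4 * (1 + t) / k) / t ≤ 16 * k / (t ^ 2 + k ^ 2) := by
        rw [div_div, div_le_div_iff₀ (by positivity) hden]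
        have : t ^ 2 + k ^ 2 ≤ 2 * k ^ 2 := by nlinarith
        calc 4 * (1 + t) * (t ^ 2 + k ^ 2) ≤ 4 * (2 * t) * (2 * k ^ 2) := by
              have : 1 + t ≤ 2 * t := by linarith
              gcongr
          _ = 16 * k * (k * t) := by ring
      calc t ^ (-a - 1) * ((S t ^ 2 - S 0 ^ 2) * (exp (-t) - ν ^ a * exp (-(t / ν)))) ≤
          t ^ (-a - 1) * (S t ^ 2 * (exp (-t) * (4 * (1 + t) / k))) :=
            mul_le_mul_of_nonneg_left h7 h2.le
        _ = t ^ (-a) * (exp (-t) * S t ^ 2) * ((4 * (1 + t) / k) / t) := by rw [h2e]; ring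
        _ ≤ t ^ (-a) * (exp (-t) * S t ^ 2) * (16 * k / (t ^ 2 + k ^ 2)) :=
            mul_le_mul_of_nonneg_left h8 (mul_nonneg h2'.le h3)
        _ = 16 * k * (t ^ (-a) * (exp (-t) * S t ^ 2) / (t ^ 2 + k ^ 2)) := by ring
        _ ≤ (16 + 2 * K) * k * (t ^ (-a) * (exp (-t) * S t ^ 2) / (t ^ 2 + k ^ 2)) := by
            gcongr
            linarith
        _ ≤ _ := by
            have : 0 ≤ t ^ (-a - 1) * nf (t / (K * k)) := by positivity
            linarith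
    · have h5 : t ^ (-a - 1) * ((S t ^ 2 - S 0 ^ 2) * (exp (-t) - ν ^ a * exp (-(t / ν)))) ≤
          t ^ (-a - 1) * (exp (-t) * S t ^ 2) := by
        refine mul_le_mul_of_nonneg_left ?_ h2.le
        calc (S t ^ 2 - S 0 ^ 2) * (exp (-t) - ν ^ a * exp (-(t / ν))) ≤
            S t ^ 2 * exp (-t) := h4.trans (mul_le_mul_of_nonneg_left hB1 (sq_nonneg _))
          _ = exp (-t) * S t ^ 2 := mul_comm _ _
      rcases le_total t (K * k) with hle2 | hle2
      · calc _ ≤ t ^ (-a - 1) * (exp (-t) * S t ^ 2) := h5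
          _ = t ^ (-a) * (exp (-t) * S t ^ 2) * (1 / t) := by rw [h2e]; ring
          _ ≤ t ^ (-a) * (exp (-t) * S t ^ 2) * (2 * (K * k) / (t ^ 2 + k ^ 2)) := by
              refine mul_le_mul_of_nonneg_left ?_ (mul_nonneg h2'.le h3)
              rw [div_le_div_iff₀ ht0 hden]
              nlinarith
          _ = 2 * K * k * (t ^ (-a) * (exp (-t) * S t ^ 2) / (t ^ 2 + k ^ 2)) := by ring
          _ ≤ (16 + 2 * K) * k * (t ^ (-a) * (exp (-t) * S t ^ 2) / (t ^ 2 + k ^ 2)) := by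
              gcongr
              linarith
          _ ≤ _ := by
              have : 0 ≤ t ^ (-a - 1) * nf (t / (K * k)) := by positivity
              linarith
      · have h6 : 1 ≤ nf (t / (K * k)) := one_le_nf (by rwa [one_le_div hKk])
        calc _ ≤ t ^ (-a - 1) * (exp (-t) * S t ^ 2) := h5
          _ ≤ t ^ (-a - 1) * nf (t / (K * k)) := by
              gcongr
              linarith
          _ ≤ _ := by
              have : 0 ≤ (16 + 2 * K) * k *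
                (t ^ (-a) * (exp (-t) * S t ^ 2) / (t ^ 2 + k ^ 2)) := by positivity
              linarith
  rw [integral_add (hAi.const_mul ((16 + 2 * K) * k)) hnfi', integral_const_mul] at hp2
  have hp3 : ∫ t in Ioi (1 : ℝ), t ^ (-a - 1) * nf (t / (K * k)) ≤
      ∫ t in Ioi (0 : ℝ), t ^ (-a - 1) * nf (t / (K * k)) := by
    refine setIntegral_mono_set hnfi ?_ (Ioi_subset_Ioi zero_le_one).eventuallyLE
    refine (ae_restrict_mem measurableSet_Ioi).mono fun t ht => ?_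
    have ht0 : (0 : ℝ) < t := ht
    have := nf_nonneg (t / (K * k))
    have h2 : 0 < t ^ (-a - 1) := Real.rpow_pos_of_pos ht0 _
    exact mul_nonneg h2.le this
  rw [hnfe] at hp3
  linarith

end

end Pool.Agent.Helper39.FG
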