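import Mathlib

/-!
# The function `(sinh y / y)^2` and integrals with the weight `t^(-a-1)`
-/

set_option autoImplicit false

open MeasureTheory Set Real Filter Topology

namespace Pool.Agent.Helper39.FG

theorem sinh_le_mul_cosh {y : ℝ} (hy : 0 < y) : sinh y ≤ y * cosh y := by
  obtain ⟨c, hc, h⟩ := exists_deriv_eq_slope sinh hy (by fun_prop) (by fun_prop)
  rw [Real.deriv_sinh, Real.sinh_zero, sub_zero, sub_zero] at h
  have h1 : cosh c ≤ cosh y := by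
    rw [Real.cosh_le_cosh, abs_of_pos hc.1, abs_of_pos hy]
    exact hc.2.le
  rw [eq_div_iff hy.ne'] at h
  nlinarith

/-- `(sinh y / y)^2` -/
noncomputable def wf (y : ℝ) : ℝ := (sinh y / y) ^ 2

theorem measurable_wf : Measurable wf := by
  unfold wf
  fun_prop

theorem one_lt_wf {y : ℝ} (hy : 0 < y) : 1 < wf y := by
  have h1 : 1 < sinh y / y := by
    rw [lt_div_iff₀ hy, one_mul]
    exact Real.self_lt_sinh_iff.2 hy
  unfold wf
  nlinarith

theorem cosh_le_exp {y : ℝ} (hy : 0 ≤ y) : cosh y ≤ exp y := by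
  rw [Real.cosh_eq]
  have : exp (-y) ≤ exp y := Real.exp_le_exp.2 (by linarith)
  linarith

theorem wf_le_exp {y : ℝ} (hy : 0 < y) : wf y ≤ exp (2 * y) := by
  have h1 : sinh y / y ≤ exp y := by
    rw [div_le_iff₀ hy]
    have := sinh_le_mul_cosh hy
    have h2 := cosh_le_exp hy.le
    nlinarith
  have h0 : 0 ≤ sinh y / y := div_nonneg (Real.sinh_nonneg_iff.2 hy.le) hy.le
  unfold wf
  calc (sinh y / y) ^ 2 ≤ exp y ^ 2 := by gcongr
    _ = exp (2 * y) := by rw [← Real.exp_nat_mul]; norm_num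

theorem wf_le_div {y : ℝ} (hy : 0 < y) : wf y ≤ exp (2 * y) / y ^ 2 := by
  have h1 : sinh y ≤ exp y := by
    rw [Real.sinh_eq]
    have : 0 < exp (-y) := Real.exp_pos _
    have : 0 < exp y := Real.exp_pos _
    linarith
  have h0 : 0 ≤ sinh y := Real.sinh_nonneg_iff.2 hy.le
  unfold wf
  rw [div_pow]
  gcongr
  calc sinh y ^ 2 ≤ exp y ^ 2 := by gcongr
    _ = exp (2 * y) := by rw [← Real.exp_nat_mul]; norm_num

theorem wf_sub_one_le {y : ℝ} (hy : 0 < y) : wf y - 1 ≤ y ^ 2 * exp (2 * y) := by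
  have h1 : sinh y / y ≤ cosh y := by
    rw [div_le_iff₀ hy, mul_comm]
    exact sinh_le_mul_cosh hy
  have h0 : 0 ≤ sinh y / y := div_nonneg (Real.sinh_nonneg_iff.2 hy.le) hy.le
  have hc : 1 ≤ cosh y := Real.one_le_cosh y
  have h2 : cosh y - 1 ≤ y ^ 2 / 2 * cosh y := by
    have h3 := sinh_le_mul_cosh (half_pos hy)
    have h4 : 0 ≤ sinh (y / 2) := Real.sinh_nonneg_iff.2 (by linarith)
    have h5 : cosh y = cosh (y / 2) ^ 2 + sinh (y / 2) ^ 2 := by
      rw [← Real.cosh_two_mul]; congr 1; ring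
    have h6 : cosh (y / 2) ^ 2 = sinh (y / 2) ^ 2 + 1 := Real.cosh_sq (y / 2)
    have h7 : sinh (y / 2) ^ 2 ≤ (y / 2 * cosh (y / 2)) ^ 2 := by gcongr
    nlinarith [sq_nonneg y, sq_nonneg (cosh (y / 2)), sq_nonneg (sinh (y / 2))]
  have h3 : exp (2 * y) = exp y ^ 2 := by rw [← Real.exp_nat_mul]; norm_num
  have h4 := cosh_le_exp hy.le
  have h5 : cosh y ^ 2 ≤ exp y ^ 2 := by gcongr
  unfold wf
  rw [h3]
  have h6 : (sinh y / y) ^ 2 ≤ cosh y ^ 2 := by gcongr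
  have h7 : cosh y ^ 2 - 1 ≤ y ^ 2 * cosh y ^ 2 := by
    have : cosh y ^ 2 - 1 = (cosh y - 1) * (cosh y + 1) := by ring
    rw [this]
    calc (cosh y - 1) * (cosh y + 1) ≤ (y ^ 2 / 2 * cosh y) * (2 * cosh y) := by
          gcongr
          linarith
      _ = y ^ 2 * cosh y ^ 2 := by ring
  calc (sinh y / y) ^ 2 - 1 ≤ cosh y ^ 2 - 1 := by linarith
    _ ≤ y ^ 2 * cosh y ^ 2 := h7
    _ ≤ y ^ 2 * exp y ^ 2 := by gcongr

/-- the dominating function -/
noncomputable def Mf (y : ℝ) : ℝ := y ^ 2 / (1 + y) ^ 3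

noncomputable def k1 (y : ℝ) : ℝ := exp (-4 * y) * (wf y - 1) ^ 2

noncomputable def k2 (y : ℝ) : ℝ := exp (-4 * y) * (wf y * (wf y - 1))

theorem measurable_k1 : Measurable k1 := by
  unfold k1
  have := measurable_wf
  fun_prop

theorem measurable_k2 : Measurable k2 := by
  unfold k2
  have := measurable_wf
  fun_prop

theorem k1_pos {y : ℝ} (hy : 0 < y) : 0 < k1 y := by
  unfold k1
  have := one_lt_wf hy
  have : 0 < wf y - 1 := by linarith
  positivity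

theorem k2_nonneg {y : ℝ} (hy : 0 < y) : 0 ≤ k2 y := by
  unfold k2
  have h := one_lt_wf hy
  have : 0 < wf y - 1 := by linarith
  have : 0 < wf y := by linarith
  positivity

theorem k1_le_k2 {y : ℝ} (hy : 0 < y) : k1 y ≤ k2 y := by
  unfold k1 k2
  have h := one_lt_wf hy
  have : 0 < wf y - 1 := by linarith
  have h2 : (wf y - 1) ^ 2 ≤ wf y * (wf y - 1) := by nlinarith
  gcongr

theorem k2_le {y : ℝ} (hy : 0 < y) : k2 y ≤ 8 * Mf y := by
  have h := one_lt_wf hy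
  have h0 : 0 < wf y - 1 := by linarith
  have h0' : 0 < wf y := by linarith
  have he : exp (-4 * y) * (exp (2 * y) * exp (2 * y)) = 1 := by
    rw [← Real.exp_add, ← Real.exp_add]
    rw [Real.exp_eq_one_iff]
    ring
  unfold k2 Mf
  rcases le_total y 1 with h1 | h1
  · have h2 : exp (-4 * y) * (wf y * (wf y - 1)) ≤
        exp (-4 * y) * (exp (2 * y) * (y ^ 2 * exp (2 * y))) := by
      gcongr
      · exact wf_le_exp hy
      · exact wf_sub_one_le hy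
    have h3 : exp (-4 * y) * (exp (2 * y) * (y ^ 2 * exp (2 * y))) = y ^ 2 := by
      calc exp (-4 * y) * (exp (2 * y) * (y ^ 2 * exp (2 * y)))
          = y ^ 2 * (exp (-4 * y) * (exp (2 * y) * exp (2 * y))) := by ring
        _ = y ^ 2 := by rw [he, mul_one]
    have h4 : y ^ 2 ≤ 8 * (y ^ 2 / (1 + y) ^ 3) := by
      rw [mul_div_assoc', le_div_iff₀ (by positivity)]
      have : (1 + y) ^ 3 ≤ 2 ^ 3 := by gcongr; linarith
      nlinarith [sq_nonneg y]
    linarith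
  · have h2 : exp (-4 * y) * (wf y * (wf y - 1)) ≤
        exp (-4 * y) * ((exp (2 * y) / y ^ 2) * (exp (2 * y) / y ^ 2)) := by
      gcongr
      · exact wf_le_div hy
      · have := wf_le_div hy
        linarith
    have h3 : exp (-4 * y) * ((exp (2 * y) / y ^ 2) * (exp (2 * y) / y ^ 2)) = 1 / y ^ 4 := by
      calc exp (-4 * y) * ((exp (2 * y) / y ^ 2) * (exp (2 * y) / y ^ 2))
          = (exp (-4 * y) * (exp (2 * y) * exp (2 * y))) / y ^ 4 := by ring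
        _ = 1 / y ^ 4 := by rw [he]
    have h4 : 1 / y ^ 4 ≤ 8 * (y ^ 2 / (1 + y) ^ 3) := by
      rw [mul_div_assoc', div_le_div_iff₀ (by positivity) (by positivity)]
      have h5 : (1 + y) ^ 3 ≤ (2 * y) ^ 3 := by gcongr; linarith
      have h6 : y ^ 3 ≤ y ^ 6 := pow_le_pow_right₀ h1 (by norm_num)
      nlinarith
    linarith

theorem Mf_nonneg {y : ℝ} (hy : 0 < y) : 0 ≤ Mf y := by
  unfold Mf
  positivity

theorem Mf_le_sq {y : ℝ} (hy : 0 < y) : Mf y ≤ y ^ 2 := by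
  unfold Mf
  rw [div_le_iff₀ (by positivity)]
  have : 1 ≤ (1 + y) ^ 3 := one_le_pow₀ (by linarith)
  nlinarith [sq_nonneg y]

theorem Mf_le_one {y : ℝ} (hy : 0 < y) : Mf y ≤ 1 := by
  unfold Mf
  rw [div_le_iff₀ (by positivity), one_mul]
  nlinarith [pow_pos hy 2, pow_pos hy 3]

theorem Mf_mul_le {y : ℝ} (hy : 0 < y) : Mf y * (1 + y ^ 2) ≤ y := by
  unfold Mf
  rw [div_mul_eq_mul_div, div_le_iff₀ (by positivity)]
  nlinarith [pow_pos hy 2, pow_pos hy 3, pow_pos hy 4]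

variable {a : ℝ}

theorem intOn_of_bound (ha : 0 < a) {f : ℝ → ℝ}
    (hm : AEStronglyMeasurable f (volume.restrict (Ioi 0))) (C : ℝ)
    (h0 : ∀ t ∈ Ioc (0 : ℝ) 1, |f t| ≤ C) (h1 : ∀ t ∈ Ioi (1 : ℝ), |f t| ≤ C * t ^ (-a - 1)) :
    IntegrableOn f (Ioi 0) := by
  have hsub1 : Ioc (0 : ℝ) 1 ⊆ Ioi 0 := fun t ht => ht.1
  have hsub2 : Ioi (1 : ℝ) ⊆ Ioi 0 := Ioi_subset_Ioi zero_le_one
  rw [← Ioc_union_Ioi_eq_Ioi (zero_le_one (α := ℝ))]
  refine IntegrableOn.union ?_ ?_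
  · refine Integrable.mono' (g := fun _ => C) ?_ (hm.mono_measure (Measure.restrict_mono hsub1
      le_rfl)) ?_
    · exact integrableOn_const (by simp)
    · exact (ae_restrict_mem measurableSet_Ioc).mono fun t ht => h0 t ht
  · have h2 : IntegrableOn (fun t : ℝ => C * t ^ (-a - 1)) (Ioi 1) :=
      (integrableOn_Ioi_rpow_of_lt (by linarith) one_pos).const_mul C
    refine Integrable.mono' h2 (hm.mono_measure (Measure.restrict_mono hsub2 le_rfl)) ?_
    exact (ae_restrict_mem measurableSet_Ioi).mono fun t ht => h1 t ht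

theorem measurable_pow (a : ℝ) : Measurable fun t : ℝ => t ^ (-a - 1) := by fun_prop

/-- scaling -/
theorem scale (f : ℝ → ℝ) {k : ℝ} (hk : 0 < k) :
    ∫ t in Ioi (0 : ℝ), t ^ (-a - 1) * f (t / k) =
      k ^ (-a) * ∫ y in Ioi (0 : ℝ), y ^ (-a - 1) * f y := by
  have h1 := integral_comp_mul_left_Ioi (fun y : ℝ => y ^ (-a - 1) * f y) 0 (inv_pos.2 hk)
  rw [inv_inv, mul_zero, smul_eq_mul] at h1
  have h2 : ∫ t in Ioi (0 : ℝ), t ^ (-a - 1) * f (t / k) =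
      k ^ (-a - 1) * ∫ t in Ioi (0 : ℝ), (k⁻¹ * t) ^ (-a - 1) * f (k⁻¹ * t) := by
    rw [← integral_const_mul]
    refine setIntegral_congr_fun measurableSet_Ioi fun t ht => ?_
    have ht' : (0 : ℝ) < t := ht
    change t ^ (-a - 1) * f (t / k) = k ^ (-a - 1) * ((k⁻¹ * t) ^ (-a - 1) * f (k⁻¹ * t))
    rw [← mul_assoc, ← Real.mul_rpow hk.le (by positivity), mul_inv_cancel_left₀ hk.ne',
      div_eq_inv_mul]
  rw [h2, h1, ← mul_assoc]
  congr 1
  rw [show (-a : ℝ) = (-a - 1) + 1 by ring, Real.rpow_add hk, Real.rpow_one]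
  ring_nf

theorem scale_int (f : ℝ → ℝ) {k : ℝ} (hk : 0 < k)
    (hf : IntegrableOn (fun y : ℝ => y ^ (-a - 1) * f y) (Ioi 0)) :
    IntegrableOn (fun t : ℝ => t ^ (-a - 1) * f (t / k)) (Ioi 0) := by
  have h1 := (integrableOn_Ioi_comp_mul_left_iff (fun y : ℝ => y ^ (-a - 1) * f y) 0
    (inv_pos.2 hk)).2 (by rwa [mul_zero])
  have h2 : IntegrableOn (fun t : ℝ => k ^ (-a - 1) * ((k⁻¹ * t) ^ (-a - 1) * f (k⁻¹ * t)))
      (Ioi 0) := Integrable.const_mul h1 (k ^ (-a - 1))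
  refine h2.congr_fun (fun t ht => ?_) measurableSet_Ioi
  have ht' : (0 : ℝ) < t := ht
  change k ^ (-a - 1) * ((k⁻¹ * t) ^ (-a - 1) * f (k⁻¹ * t)) = t ^ (-a - 1) * f (t / k)
  rw [← mul_assoc, ← Real.mul_rpow hk.le (by positivity), mul_inv_cancel_left₀ hk.ne',
    div_eq_inv_mul]

theorem rpow_mul_sq_le (ha1 : a < 1) {t : ℝ} (ht : 0 < t) (ht1 : t ≤ 1) :
    t ^ (-a - 1) * t ^ 2 ≤ 1 := by
  have h1 : t ^ (-a - 1) * t ^ 2 = t ^ (1 - a) := by
    rw [← Real.rpow_natCast t 2, ← Real.rpow_add ht]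
    congr 1
    push_cast
    ring
  rw [h1]
  exact Real.rpow_le_one ht.le ht1 (by linarith)

theorem intOn_k (ha : 0 < a) (ha1 : a < 1) {f : ℝ → ℝ} (hf : Measurable f) {C : ℝ}
    (hC : 0 ≤ C) (h : ∀ y > 0, |f y| ≤ C * Mf y) :
    IntegrableOn (fun y : ℝ => y ^ (-a - 1) * f y) (Ioi 0) := by
  refine intOn_of_bound ha ((measurable_pow a).mul hf).aestronglyMeasurable C ?_ ?_
  · intro t ht
    have h1 : 0 < t ^ (-a - 1) := Real.rpow_pos_of_pos ht.1 _
    rw [abs_mul, abs_of_pos h1]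
    calc t ^ (-a - 1) * |f t| ≤ t ^ (-a - 1) * (C * t ^ 2) := by
          gcongr
          exact (h t ht.1).trans (by gcongr; exact Mf_le_sq ht.1)
      _ = C * (t ^ (-a - 1) * t ^ 2) := by ring
      _ ≤ C * 1 := by gcongr; exact rpow_mul_sq_le ha1 ht.1 ht.2
      _ = C := mul_one C
  · intro t ht
    have ht0 : 0 < t := lt_trans one_pos ht
    have h1 : 0 < t ^ (-a - 1) := Real.rpow_pos_of_pos ht0 _
    rw [abs_mul, abs_of_pos h1, mul_comm]
    gcongr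
    calc |f t| ≤ C * Mf t := h t ht0
      _ ≤ C * 1 := by gcongr; exact Mf_le_one ht0
      _ = C := mul_one C

theorem intOn_k' (ha : 0 < a) (ha1 : a < 1) {f : ℝ → ℝ} (hf : Measurable f) {C : ℝ}
    (hC : 0 ≤ C) (h2 : ∀ y > 0, |f y| ≤ C * y ^ 2) (h1 : ∀ y > 0, |f y| ≤ C) :
    IntegrableOn (fun y : ℝ => y ^ (-a - 1) * f y) (Ioi 0) := by
  refine intOn_of_bound ha ((measurable_pow a).mul hf).aestronglyMeasurable C ?_ ?_
  · intro t ht
    have h3 : 0 < t ^ (-a - 1) := Real.rpow_pos_of_pos ht.1 _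
    rw [abs_mul, abs_of_pos h3]
    calc t ^ (-a - 1) * |f t| ≤ t ^ (-a - 1) * (C * t ^ 2) := by
          gcongr
          exact h2 t ht.1
      _ = C * (t ^ (-a - 1) * t ^ 2) := by ring
      _ ≤ C * 1 := by gcongr; exact rpow_mul_sq_le ha1 ht.1 ht.2
      _ = C := mul_one C
  · intro t ht
    have ht0 : 0 < t := lt_trans one_pos ht
    have h3 : 0 < t ^ (-a - 1) := Real.rpow_pos_of_pos ht0 _
    rw [abs_mul, abs_of_pos h3, mul_comm]
    gcongr
    exact h1 t ht0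

/-- a bounded function that is at least `1` on `[1, ∞)` and quadratic at `0` -/
noncomputable def nf (y : ℝ) : ℝ := 2 * y ^ 2 / (1 + y ^ 2)

theorem measurable_nf : Measurable nf := by
  unfold nf
  fun_prop

theorem nf_nonneg (y : ℝ) : 0 ≤ nf y := by
  unfold nf
  positivity

theorem nf_le_two (y : ℝ) : nf y ≤ 2 := by
  unfold nf
  rw [div_le_iff₀ (by positivity)]
  nlinarith [sq_nonneg y]

theorem nf_le_sq (y : ℝ) : nf y ≤ 2 * y ^ 2 := by
  unfold nf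
  rw [div_le_iff₀ (by positivity)]
  nlinarith [sq_nonneg y, sq_nonneg (y ^ 2)]

theorem one_le_nf {y : ℝ} (hy : 1 ≤ y) : 1 ≤ nf y := by
  unfold nf
  rw [le_div_iff₀ (by positivity)]
  nlinarith

theorem int_nf (ha : 0 < a) (ha1 : a < 1) :
    IntegrableOn (fun y : ℝ => y ^ (-a - 1) * nf y) (Ioi 0) :=
  intOn_k' ha ha1 measurable_nf zero_le_two
    (fun y _ => by rw [abs_of_nonneg (nf_nonneg y)]; exact nf_le_sq y)
    (fun y _ => by rw [abs_of_nonneg (nf_nonneg y)]; exact nf_le_two y)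

theorem int_k1 (ha : 0 < a) (ha1 : a < 1) :
    IntegrableOn (fun y : ℝ => y ^ (-a - 1) * k1 y) (Ioi 0) :=
  intOn_k ha ha1 measurable_k1 (by norm_num : (0 : ℝ) ≤ 8)
    (fun y hy => by rw [abs_of_pos (k1_pos hy)]; exact (k1_le_k2 hy).trans (k2_le hy))

theorem int_k2 (ha : 0 < a) (ha1 : a < 1) :
    IntegrableOn (fun y : ℝ => y ^ (-a - 1) * k2 y) (Ioi 0) :=
  intOn_k ha ha1 measurable_k2 (by norm_num : (0 : ℝ) ≤ 8)
    (fun y hy => by rw [abs_of_nonneg (k2_nonneg hy)]; exact k2_le hy)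

theorem K1_pos (ha : 0 < a) (ha1 : a < 1) :
    0 < ∫ y in Ioi (0 : ℝ), y ^ (-a - 1) * k1 y := by
  have hpos : ∀ y ∈ Ioi (0 : ℝ), 0 < y ^ (-a - 1) * k1 y := fun y hy =>
    mul_pos (Real.rpow_pos_of_pos hy _) (k1_pos hy)
  rw [setIntegral_pos_iff_support_of_nonneg_ae
    ((ae_restrict_mem measurableSet_Ioi).mono fun y hy => (hpos y hy).le) (int_k1 ha ha1)]
  have h1 : Ioi (0 : ℝ) ⊆ Function.support (fun y : ℝ => y ^ (-a - 1) * k1 y) ∩ Ioi 0 :=
    fun y hy => ⟨(hpos y hy).ne', hy⟩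
  refine lt_of_lt_of_le ?_ (measure_mono h1)
  simp

end Pool.Agent.Helper39.FG
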